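import Pool.Agent.R284.GE.Stm

/-! # Project GE, piece DNO, second attempt (helper435) -/

set_option autoImplicit false
open MeasureTheory Filter Topology

namespace Pool.Agent.R435.GE.DNO2

open Pool.Agent.R284.GE

noncomputable def cv {d : ℕ} (μ ν : Measure (Tor d)) : Measure (Tor d) :=
  (μ.prod ν).map (fun p : Tor d × Tor d => p.1 + p.2)

theorem meas_add {d : ℕ} : Measurable (fun p : Tor d × Tor d => p.1 + p.2) :=
  (continuous_fst.add continuous_snd).measurable

theorem cv_inv {d : ℕ} (A : Matrix (Fin d) (Fin d) ℤ) (μ ν : Measure (Tor d)) [IsProbabilityMeasure μ]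
    [IsProbabilityMeasure ν] (hμ : μ.map (TM A) = μ) (hν : ν.map (TM A) = ν) :
    (cv μ ν).map (TM A) = cv μ ν := by
  have h1 : (μ.prod ν).map (Prod.map (TM A) (TM A)) = μ.prod ν := by
    rw [← Measure.map_prod_map μ ν (measurable_TM A) (measurable_TM A), hμ, hν]
  unfold cv
  rw [Measure.map_map (measurable_TM A) meas_add]
  conv_rhs => rw [← h1]
  rw [Measure.map_map meas_add ((measurable_TM A).prodMap (measurable_TM A))]
  congr 1
  funext p
  simp [TM_add]

theorem cv_atom {d : ℕ} (μ ν : Measure (Tor d)) [IsProbabilityMeasure μ] [IsProbabilityMeasure ν]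
    (c : ENNReal) (hc : ∀ x, ν {x} ≤ c) (x : Tor d) : cv μ ν {x} ≤ c := by
  unfold cv
  rw [Measure.map_apply meas_add (measurableSet_singleton x)]
  rw [Measure.prod_apply (meas_add (measurableSet_singleton x))]
  calc ∫⁻ a, ν (Prod.mk a ⁻¹' ((fun p : Tor d × Tor d => p.1 + p.2) ⁻¹' {x})) ∂μ
      ≤ ∫⁻ _, c ∂μ := by
        refine lintegral_mono fun a => ?_
        refine le_trans (measure_mono ?_) (hc (x - a))
        intro b hb
        have : a + b = x := hb
        show b = x - a
        rw [← this]; abel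
    _ = c := by simp

theorem cv_prob {d : ℕ} (μ ν : Measure (Tor d)) [IsProbabilityMeasure μ] [IsProbabilityMeasure ν] :
    IsProbabilityMeasure (cv μ ν) := Measure.isProbabilityMeasure_map meas_add.aemeasurable

theorem cv_close {d : ℕ} (μ ν : Measure (Tor d)) [IsProbabilityMeasure μ] [IsProbabilityMeasure ν]
    (f : BoundedContinuousFunction (Tor d) ℝ) (e δ : ℝ) (he : 0 ≤ e) (hδ : 0 < δ)
    (h : ∀ a b : Tor d, dist a b ≤ δ → |f a - f b| ≤ e) (hν : (ν {x | δ < ‖x‖}).toReal ≤ δ) :
    |∫ x, f x ∂(cv μ ν) - ∫ x, f x ∂μ| ≤ e + 2 * ‖f‖ * δ := by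
  have h1 : ∫ x, f x ∂(cv μ ν) = ∫ p : Tor d × Tor d, f (p.1 + p.2) ∂(μ.prod ν) := by
    unfold cv
    rw [integral_map meas_add.aemeasurable f.continuous.aestronglyMeasurable]
  have h2 : ∫ x, f x ∂μ = ∫ p : Tor d × Tor d, f p.1 ∂(μ.prod ν) := by
    rw [integral_fun_fst]
    simp
  have i1 : Integrable (fun p : Tor d × Tor d => f (p.1 + p.2)) (μ.prod ν) := by
    refine Integrable.of_bound (f.continuous.comp (continuous_fst.add continuous_snd)).aestronglyMeasurable ‖f‖ ?_
    exact ae_of_all _ fun p => f.norm_coe_le_norm _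
  have i2 : Integrable (fun p : Tor d × Tor d => f p.1) (μ.prod ν) := by
    refine Integrable.of_bound (f.continuous.comp continuous_fst).aestronglyMeasurable ‖f‖ ?_
    exact ae_of_all _ fun p => f.norm_coe_le_norm _
  rw [h1, h2, ← integral_sub i1 i2]
  let S : Set (Tor d × Tor d) := Set.univ ×ˢ {x | δ < ‖x‖}
  have hS0 : MeasurableSet {x : Tor d | δ < ‖x‖} := measurableSet_lt measurable_const measurable_norm
  have hS : MeasurableSet S := MeasurableSet.univ.prod hS0
  have hSm : (μ.prod ν).real S ≤ δ := by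
    show ((μ.prod ν) (Set.univ ×ˢ {x | δ < ‖x‖})).toReal ≤ δ
    rw [Measure.prod_prod, measure_univ, one_mul]
    exact hν
  have i3 : Integrable (fun p : Tor d × Tor d => e + S.indicator (fun _ => 2 * ‖f‖) p) (μ.prod ν) :=
    (integrable_const e).add ((integrable_const (2 * ‖f‖)).indicator hS)
  have key : ∀ p : Tor d × Tor d, ‖f (p.1 + p.2) - f p.1‖ ≤ e + S.indicator (fun _ => 2 * ‖f‖) p := by
    intro p
    by_cases hp : δ < ‖p.2‖
    · have hpS : p ∈ S := ⟨Set.mem_univ _, hp⟩
      rw [Set.indicator_of_mem hpS]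
      have a1 := f.norm_coe_le_norm (p.1 + p.2)
      have a2 := f.norm_coe_le_norm p.1
      have a3 := norm_sub_le (f (p.1 + p.2)) (f p.1)
      linarith
    · have hpS : p ∉ S := fun hh => hp hh.2
      rw [Set.indicator_of_notMem hpS, add_zero]
      apply h
      rw [dist_eq_norm, add_sub_cancel_left]
      exact not_lt.1 hp
  calc |∫ p : Tor d × Tor d, (f (p.1 + p.2) - f p.1) ∂(μ.prod ν)|
      ≤ ∫ p : Tor d × Tor d, (e + S.indicator (fun _ => 2 * ‖f‖) p) ∂(μ.prod ν) :=
        norm_integral_le_of_norm_le i3 (ae_of_all _ key)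
    _ = e + 2 * ‖f‖ * (μ.prod ν).real S := by
        rw [integral_add (integrable_const e) ((integrable_const (2 * ‖f‖)).indicator hS),
          integral_indicator hS]
        simp [mul_comm]
    _ ≤ e + 2 * ‖f‖ * δ := by
        have := norm_nonneg f
        nlinarith [mul_le_mul_of_nonneg_left hSm (by positivity : 0 ≤ 2 * ‖f‖)]

theorem main (hA' : S_ATOM) : S_DNO := by
  intro d A N hd hA hN
  intro μ
  have hμ : (μ.1 : Measure (Tor d)).map (TM A) = (μ.1 : Measure (Tor d)) := μ.2
  choose ν hν using fun n : ℕ => hA' d A (2 * N) (1 / ((n : ℝ) + 1)) hd hA (by omega) Nat.one_div_pos_of_nat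
  let c : ℕ → PA A := fun n =>
    haveI := (hν n).1
    ⟨⟨cv (μ.1 : Measure (Tor d)) (ν n), cv_prob _ _⟩, cv_inv A _ _ hμ (hν n).2.1⟩
  have hN' : (0 : ℝ) < N := by exact_mod_cast hN
  refine mem_closure_of_tendsto (f := c) (b := atTop) ?_ (Eventually.of_forall ?_)
  · rw [tendsto_subtype_rng, ProbabilityMeasure.tendsto_iff_forall_integral_tendsto]
    intro f
    rw [Metric.tendsto_atTop]
    intro e he
    have huc : UniformContinuous f := CompactSpace.uniformContinuous_of_continuous f.continuous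
    obtain ⟨δ, hδ, hδ'⟩ := Metric.uniformContinuous_iff.1 huc (e / 2) (half_pos he)
    obtain ⟨n1, hn1⟩ := exists_nat_one_div_lt hδ
    obtain ⟨n2, hn2⟩ := exists_nat_one_div_lt (show (0:ℝ) < e / (2 * (2 * ‖f‖ + 1)) by
      have := norm_nonneg f
      positivity)
    refine ⟨max n1 n2, fun n hn => ?_⟩
    haveI := (hν n).1
    have hnp : (0 : ℝ) < 1 / ((n : ℝ) + 1) := Nat.one_div_pos_of_nat
    have b1 : 1 / ((n : ℝ) + 1) < δ := by
      refine lt_of_le_of_lt ?_ hn1
      exact Nat.one_div_le_one_div (le_trans (le_max_left _ _) hn)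
    have b2 : 1 / ((n : ℝ) + 1) < e / (2 * (2 * ‖f‖ + 1)) := by
      refine lt_of_le_of_lt ?_ hn2
      exact Nat.one_div_le_one_div (le_trans (le_max_right _ _) hn)
    have h3 := cv_close (μ.1 : Measure (Tor d)) (ν n) f (e / 2) (1 / ((n : ℝ) + 1)) (half_pos he).le hnp
      (fun a b hab => by
        have := hδ' (lt_of_le_of_lt hab b1)
        rw [Real.dist_eq] at this
        exact this.le) (hν n).2.2.1
    have h4 : 2 * ‖f‖ * (1 / ((n : ℝ) + 1)) < e / 2 := by
      have hf := norm_nonneg f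
      have h5 : (2 * ‖f‖ + 1) * (1 / ((n : ℝ) + 1)) < e / 2 := by
        calc (2 * ‖f‖ + 1) * (1 / ((n : ℝ) + 1)) < (2 * ‖f‖ + 1) * (e / (2 * (2 * ‖f‖ + 1))) :=
              mul_lt_mul_of_pos_left b2 (by positivity)
          _ = e / 2 := by
              field_simp
      nlinarith
    rw [Real.dist_eq]
    show |∫ x, f x ∂(cv (μ.1 : Measure (Tor d)) (ν n)) - ∫ x, f x ∂(μ.1 : Measure (Tor d))| < e
    linarith
  · intro n x
    haveI := (hν n).1
    have h1 : ∀ x, ν n {x} ≤ ENNReal.ofReal (1 / ((2 * N : ℕ) : ℝ)) := by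
      intro x
      have h2 := (hν n).2.2.2 x
      rw [← ENNReal.ofReal_toReal (measure_ne_top (ν n) {x})]
      exact ENNReal.ofReal_le_ofReal h2
    have h2 := cv_atom (μ.1 : Measure (Tor d)) (ν n) _ h1 x
    show ((cv (μ.1 : Measure (Tor d)) (ν n)) {x}).toReal < 1 / N
    have h3 : ((cv (μ.1 : Measure (Tor d)) (ν n)) {x}).toReal ≤ 1 / ((2 * N : ℕ) : ℝ) := by
      have := ENNReal.toReal_mono ENNReal.ofReal_ne_top h2
      rwa [ENNReal.toReal_ofReal (by positivity)] at this
    refine lt_of_le_of_lt h3 ?_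
    push_cast
    rw [div_lt_div_iff₀ (by positivity) hN']
    linarith

end Pool.Agent.R435.GE.DNO2
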