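import Pool.Agent.R284.GE.CINV

/-! # Project GE, piece PP, second attempt (helper435) -/

set_option autoImplicit false
open MeasureTheory Filter Topology Polynomial

namespace Pool.Agent.R435.GE.PP2

open Pool.Agent.R284.GE Pool.Agent.R284.GE.CINV

theorem eigE {d : ℕ} (X P G : Matrix (Fin d) (Fin d) ℂ) (hXP : X * P = P * X) (hXG : X * G = G * X)
    (μ : ℂ) (w : Fin d → ℂ) (hw : w ≠ 0) (h1 : P.mulVec w = w) (h2 : G.mulVec w = μ • w) :
    ∃ (z : ℂ) (x : Fin d → ℂ), x ≠ 0 ∧ X.mulVec x = z • x ∧ P.mulVec x = x ∧ G.mulVec x = μ • x := by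
  let W : Submodule ℂ (Fin d → ℂ) :=
    { carrier := {x | G.mulVec x = μ • x ∧ P.mulVec x = x}
      add_mem' := by
        rintro a b ⟨ha, ha'⟩ ⟨hb, hb'⟩
        exact ⟨by rw [Matrix.mulVec_add, ha, hb, smul_add], by rw [Matrix.mulVec_add, ha', hb']⟩
      zero_mem' := ⟨by rw [Matrix.mulVec_zero, smul_zero], Matrix.mulVec_zero _⟩
      smul_mem' := by
        rintro c a ⟨ha, ha'⟩
        exact ⟨by rw [Matrix.mulVec_smul, ha, smul_comm], by rw [Matrix.mulVec_smul, ha']⟩ }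
  have hmem : w ∈ W := ⟨h2, h1⟩
  have hinv : ∀ x ∈ W, (Matrix.mulVecLin X) x ∈ W := by
    rintro x ⟨hx1, hx2⟩
    rw [Matrix.mulVecLin_apply]
    refine ⟨?_, ?_⟩
    · rw [Matrix.mulVec_mulVec, ← hXG, ← Matrix.mulVec_mulVec, hx1, Matrix.mulVec_smul]
    · rw [Matrix.mulVec_mulVec, ← hXP, ← Matrix.mulVec_mulVec, hx2]
  have : Nontrivial W := ⟨⟨⟨w, hmem⟩, 0, fun hh => hw (congrArg Subtype.val hh)⟩⟩
  obtain ⟨z, hz⟩ := Module.End.exists_eigenvalue ((Matrix.mulVecLin X).restrict hinv)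
  obtain ⟨x, hx⟩ := hz.exists_hasEigenvector
  have hx1 := hx.apply_eq_smul
  have hx0 := hx.2
  have hxe : X.mulVec (x : Fin d → ℂ) = z • (x : Fin d → ℂ) := congrArg Subtype.val hx1
  have hxn : (x : Fin d → ℂ) ≠ 0 := fun hh => hx0 (Subtype.ext hh)
  exact ⟨z, x, hxn, hxe, x.2.2, x.2.1⟩

theorem aeval_mulVec {d : ℕ} (X : Matrix (Fin d) (Fin d) ℂ) (z : ℂ) (x : Fin d → ℂ)
    (h : X.mulVec x = z • x) (p : ℤ[X]) : (aeval X p).mulVec x = (aeval z p) • x := by
  induction p using Polynomial.induction_on' with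
  | add p q hp hq => rw [map_add, map_add, Matrix.add_mulVec, hp, hq, add_smul]
  | monomial n a =>
    rw [aeval_monomial, aeval_monomial, ← Matrix.mulVec_mulVec, pow_mulVec X z x h, Matrix.mulVec_smul]
    have h1 : (algebraMap ℤ (Matrix (Fin d) (Fin d) ℂ) a).mulVec x = (a : ℂ) • x := by
      rw [eq_intCast, Matrix.intCast_mulVec]
    rw [h1, smul_smul, eq_intCast, mul_comm]

theorem comm_aeval {d : ℕ} (X Q : Matrix (Fin d) (Fin d) ℝ) (h : Commute X Q) (p : ℤ[X]) :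
    Commute (aeval X p) Q := by
  induction p using Polynomial.induction_on' with
  | add p q hp hq => rw [map_add]; exact hp.add_left hq
  | monomial n a =>
    rw [aeval_monomial]
    exact (Algebra.commute_algebraMap_left a Q).mul_left (h.pow_left n)

theorem rm_aeval {d : ℕ} (H : Matrix (Fin d) (Fin d) ℤ) (p : ℤ[X]) : rm (aeval H p) = aeval (rm H) p := by
  have h : ∀ Z : Matrix (Fin d) (Fin d) ℤ, rm Z = ((Int.castRingHom ℝ).mapMatrix).toIntAlgHom Z := fun Z => rfl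
  rw [h, h, aeval_algHom_apply]

theorem ch_aeval {d : ℕ} (X : Matrix (Fin d) (Fin d) ℝ) (p : ℤ[X]) : ch d (aeval X p) = aeval (ch d X) p := by
  have h : ∀ Z : Matrix (Fin d) (Fin d) ℝ, ch d Z = (ch d).toIntAlgHom Z := fun Z => rfl
  rw [h, h, aeval_algHom_apply]

theorem growth {d : ℕ} (M : ℕ → Matrix (Fin d) (Fin d) ℝ)
    (hM : ∀ τ > 0, ∃ C : ℝ, ∀ (j : ℕ) (v : Fin d → ℝ), ‖(M j).mulVec v‖ ≤ C * Real.exp (τ * j) * ‖v‖)
    (z : ℂ) (x : Fin d → ℂ) (hx : x ≠ 0) (h : ∀ j, (ch d (M j)).mulVec x = z ^ j • x) : ‖z‖ ≤ 1 := by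
  by_contra hz
  push Not at hz
  obtain ⟨i, hi⟩ : ∃ i, x i ≠ 0 := by
    by_contra hh
    push Not at hh
    exact hx (funext hh)
  have hlog : 0 < Real.log ‖z‖ := Real.log_pos hz
  obtain ⟨C, hC⟩ := hM (Real.log ‖z‖ / 2) (half_pos hlog)
  let a : Fin d → ℝ := fun k => (x k).re
  let b : Fin d → ℝ := fun k => (x k).im
  have hre : ∀ j, (z ^ j * x i).re = (M j).mulVec a i := by
    intro j
    have h1 : (ch d (M j)).mulVec x i = z ^ j * x i := by rw [h j]; rfl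
    rw [← h1]
    simp only [Matrix.mulVec, dotProduct, Complex.re_sum]
    refine Finset.sum_congr rfl fun k _ => ?_
    have h2 : ch d (M j) i k = ((M j i k : ℝ) : ℂ) := rfl
    rw [h2, Complex.re_ofReal_mul]
  have him : ∀ j, (z ^ j * x i).im = (M j).mulVec b i := by
    intro j
    have h1 : (ch d (M j)).mulVec x i = z ^ j * x i := by rw [h j]; rfl
    rw [← h1]
    simp only [Matrix.mulVec, dotProduct, Complex.im_sum]
    refine Finset.sum_congr rfl fun k _ => ?_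
    have h2 : ch d (M j) i k = ((M j i k : ℝ) : ℂ) := rfl
    rw [h2, Complex.im_ofReal_mul]
  have hb : ∀ j : ℕ, ‖z‖ ^ j * ‖x i‖ ≤ C * Real.exp (Real.log ‖z‖ / 2 * j) * (‖a‖ + ‖b‖) := by
    intro j
    have h1 : ‖z ^ j * x i‖ ≤ |(z ^ j * x i).re| + |(z ^ j * x i).im| := Complex.norm_le_abs_re_add_abs_im _
    rw [norm_mul, norm_pow] at h1
    have h2 : |(z ^ j * x i).re| ≤ C * Real.exp (Real.log ‖z‖ / 2 * j) * ‖a‖ := by
      rw [hre j]
      exact le_trans (norm_le_pi_norm ((M j).mulVec a) i) (hC j a)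
    have h3 : |(z ^ j * x i).im| ≤ C * Real.exp (Real.log ‖z‖ / 2 * j) * ‖b‖ := by
      rw [him j]
      exact le_trans (norm_le_pi_norm ((M j).mulVec b) i) (hC j b)
    rw [mul_add]
    linarith
  have he : ∀ j : ℕ, ‖z‖ ^ j = Real.exp (Real.log ‖z‖ / 2) ^ j * Real.exp (Real.log ‖z‖ / 2 * j) := by
    intro j
    have hz0 : 0 < ‖z‖ := by linarith
    rw [← Real.exp_nat_mul, ← Real.exp_add]
    conv_lhs => rw [← Real.exp_log hz0]
    rw [← Real.exp_nat_mul]
    congr 1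
    ring
  have hb2 : ∀ j : ℕ, Real.exp (Real.log ‖z‖ / 2) ^ j * ‖x i‖ ≤ C * (‖a‖ + ‖b‖) := by
    intro j
    have h1 := hb j
    rw [he j] at h1
    have h2 : 0 < Real.exp (Real.log ‖z‖ / 2 * j) := Real.exp_pos _
    have h3 : (Real.exp (Real.log ‖z‖ / 2) ^ j * ‖x i‖) * Real.exp (Real.log ‖z‖ / 2 * j) ≤
        (C * (‖a‖ + ‖b‖)) * Real.exp (Real.log ‖z‖ / 2 * j) := by linarith
    exact le_of_mul_le_mul_right h3 h2
  obtain ⟨j, hj⟩ := pow_unbounded_of_one_lt (C * (‖a‖ + ‖b‖) / ‖x i‖)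
    (Real.one_lt_exp_iff.2 (half_pos hlog))
  have hxi : 0 < ‖x i‖ := norm_pos_iff.2 hi
  rw [div_lt_iff₀ hxi] at hj
  exact absurd (hb2 j) (not_le.2 hj)

theorem main (hP2 : S_P2) (hGf : S_GELF) : S_PP := by
  intro d H Ps Pc Pu hdet hN hS
  have hX : (rm H).det ≠ 0 := by
    rw [rm_det]; exact_mod_cast hdet
  -- no roots of unity
  have hroot : ∀ z : ℂ, aeval z H.charpoly = 0 ↔ ∃ w : Fin d → ℂ, w ≠ 0 ∧ (ch d (rm H)).mulVec w = z • w := by
    intro z
    rw [← mem_roots, Polynomial.mem_roots (Matrix.charpoly_monic _).ne_zero, Polynomial.IsRoot.def]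
    have h1 : ch d (rm H) = H.map (Int.castRingHom ℂ) := by
      ext i j
      show ((((H i j : ℤ) : ℝ)) : ℂ) = ((H i j : ℤ) : ℂ)
      simp
    rw [h1, Matrix.charpoly_map, aeval_def, eval₂_eq_eval_map]
    rfl
  have hru : ∀ z : ℂ, aeval z H.charpoly = 0 → ∀ n : ℕ, 1 ≤ n → z ^ n ≠ 1 := by
    intro z hz n hn hzn
    obtain ⟨w, hw, hw2⟩ := (hroot z).1 hz
    have h1 := pow_mulVec _ z w hw2 n
    rw [hzn, one_smul] at h1
    have h2 : (ch d (rm (H ^ n - 1))).mulVec w = 0 := by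
      rw [rm_sub_one, map_sub, map_pow, map_one, Matrix.sub_mulVec, h1, Matrix.one_mulVec, sub_self]
    have h3 : (ch d (rm (H ^ n - 1))).det = 0 := Matrix.exists_mulVec_eq_zero_iff.1 ⟨w, hw, h2⟩
    rw [ch_det, rm_det] at h3
    apply hN n hn
    exact_mod_cast h3
  obtain ⟨P, hP⟩ := hP2 H.charpoly (Matrix.charpoly_monic H) hru
  let G : Matrix (Fin d) (Fin d) ℤ := aeval H P
  have hXc : Commute (rm H) Pc := hS.cc
  have hGc : Commute (rm G) Pc := by
    show Commute (rm (aeval H P)) Pc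
    rw [rm_aeval]
    exact comm_aeval _ _ hXc P
  have hXG : Commute (rm H) (rm G) := by
    show Commute (rm H) (rm (aeval H P))
    rw [rm_aeval]
    exact (comm_aeval _ _ (Commute.refl (rm H)) P).symm
  -- eigenvalues of G on the central part
  have key : ∀ (μ : ℂ) (w : Fin d → ℂ), w ≠ 0 → (ch d Pc).mulVec w = w → (ch d (rm G)).mulVec w = μ • w →
      μ ≠ 0 ∧ ‖μ‖ < 1 / 2 := by
    intro μ w hw h1 h2
    obtain ⟨z, x, hx, hx1, hx2, hx3⟩ := eigE (ch d (rm H)) (ch d Pc) (ch d (rm G))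
      (by rw [← map_mul, ← map_mul, hXc.eq]) (by rw [← map_mul, ← map_mul, hXG.eq]) μ w hw h1 h2
    have h3 : (ch d (rm G)).mulVec x = (aeval z P) • x := by
      show (ch d (rm (aeval H P))).mulVec x = (aeval z P) • x
      rw [rm_aeval, ch_aeval]
      exact aeval_mulVec _ z x hx1 P
    have h4 : μ = aeval z P := by
      have h5 : (μ - aeval z P) • x = 0 := by rw [sub_smul, ← hx3, ← h3, sub_self]
      rcases smul_eq_zero.1 h5 with h' | h'
      · exact sub_eq_zero.1 h'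
      · exact absurd h' hx
    have hz : aeval z H.charpoly = 0 := (hroot z).2 ⟨x, hx, hx1⟩
    have hle : ‖z‖ ≤ 1 := by
      refine growth (fun j => (rm H) ^ j * Pc) (fun τ hτ => ?_) z x hx (fun j => ?_)
      · obtain ⟨C, hC⟩ := hS.bc τ hτ
        exact ⟨C, fun j v => (hC j v).1⟩
      · rw [map_mul, map_pow, ← Matrix.mulVec_mulVec, hx2, pow_mulVec _ z x hx1]
    have hinv : (ch d (rm H)⁻¹).mulVec x = z⁻¹ • x := by
      have h5 : (rm H)⁻¹ * rm H = 1 := Matrix.nonsing_inv_mul _ (isUnit_iff_ne_zero.2 hX)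
      have h6 : (ch d (rm H)⁻¹).mulVec ((ch d (rm H)).mulVec x) = x := by
        rw [Matrix.mulVec_mulVec, ← map_mul, h5, map_one, Matrix.one_mulVec]
      rw [hx1, Matrix.mulVec_smul] at h6
      have hz0 : z ≠ 0 := by
        rintro rfl
        rw [zero_smul] at h6
        exact hx h6.symm
      calc (ch d (rm H)⁻¹).mulVec x = z⁻¹ • (z • (ch d (rm H)⁻¹).mulVec x) := by
            rw [smul_smul, inv_mul_cancel₀ hz0, one_smul]
        _ = z⁻¹ • x := by rw [h6]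
    have hge : ‖z⁻¹‖ ≤ 1 := by
      refine growth (fun j => ((rm H)⁻¹) ^ j * Pc) (fun τ hτ => ?_) z⁻¹ x hx (fun j => ?_)
      · obtain ⟨C, hC⟩ := hS.bc τ hτ
        exact ⟨C, fun j v => (hC j v).2⟩
      · rw [map_mul, map_pow, ← Matrix.mulVec_mulVec, hx2, pow_mulVec _ z⁻¹ x hinv]
    have hz1 : ‖z‖ = 1 := by
      refine le_antisymm hle ?_
      have hz0 : z ≠ 0 := by
        intro hz0
        have h5 : (rm H)⁻¹ * rm H = 1 := Matrix.nonsing_inv_mul _ (isUnit_iff_ne_zero.2 hX)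
        have h6 : (ch d (rm H)⁻¹).mulVec ((ch d (rm H)).mulVec x) = x := by
          rw [Matrix.mulVec_mulVec, ← map_mul, h5, map_one, Matrix.one_mulVec]
        rw [hx1, hz0, zero_smul, Matrix.mulVec_zero] at h6
        exact hx h6.symm
      rw [norm_inv] at hge
      have : 0 < ‖z‖ := norm_pos_iff.2 hz0
      by_contra hh
      push Not at hh
      have := (one_lt_inv₀ this).2 hh
      linarith
    rw [h4]
    exact hP z hz hz1
  -- the inverse
  let Y : Matrix (Fin d) (Fin d) ℝ := rm G * Pc + (1 - Pc)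
  have hYc : Commute Y Pc :=
    (hGc.mul_left (Commute.refl Pc)).add_left ((Commute.one_left Pc).sub_left (Commute.refl Pc))
  have hYP : Y * Pc = rm G * Pc := by
    show (rm G * Pc + (1 - Pc)) * Pc = rm G * Pc
    rw [add_mul, sub_mul, mul_assoc, hS.ic, one_mul, sub_self, add_zero]
  have hYdet : Y.det ≠ 0 := by
    intro h0
    have h1 : (ch d Y).det = 0 := by rw [ch_det, h0]; simp
    obtain ⟨w, hw, hw2⟩ := Matrix.exists_mulVec_eq_zero_iff.2 h1
    have h2 : (ch d (rm G * Pc)).mulVec w = 0 := by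
      have h3 : Pc * Y = rm G * Pc := by rw [← hYc.eq, hYP]
      rw [← h3, map_mul, ← Matrix.mulVec_mulVec, hw2, Matrix.mulVec_zero]
    have h4 : (ch d Pc).mulVec w = w := by
      have h5 : (ch d Y).mulVec w = (ch d (rm G * Pc)).mulVec w + (w - (ch d Pc).mulVec w) := by
        show (ch d (rm G * Pc + (1 - Pc))).mulVec w = _
        rw [map_add, map_sub, map_one, Matrix.add_mulVec, Matrix.sub_mulVec, Matrix.one_mulVec]
      rw [hw2, h2, zero_add] at h5
      exact (sub_eq_zero.1 h5.symm).symm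
    have h6 : (ch d (rm G)).mulVec w = (0 : ℂ) • w := by
      rw [zero_smul, ← h2, map_mul, ← Matrix.mulVec_mulVec, h4]
    exact (key 0 w hw h4 h6).1 rfl
  have hYu : IsUnit Y.det := isUnit_iff_ne_zero.2 hYdet
  have hY1 : Y * Y⁻¹ = 1 := Matrix.mul_nonsing_inv _ hYu
  have hY2 : Y⁻¹ * Y = 1 := Matrix.nonsing_inv_mul _ hYu
  have hRc : Y⁻¹ * Pc = Pc * Y⁻¹ := by
    calc Y⁻¹ * Pc = Y⁻¹ * (Pc * (Y * Y⁻¹)) := by rw [hY1, mul_one]
      _ = Y⁻¹ * (Pc * Y) * Y⁻¹ := by simp only [mul_assoc]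
      _ = Y⁻¹ * (Y * Pc) * Y⁻¹ := by rw [hYc.eq]
      _ = Pc * Y⁻¹ := by rw [← mul_assoc Y⁻¹ Y Pc, hY2, one_mul]
  obtain ⟨C, hC⟩ := hGf d (rm G * Pc) (1 / 2) (by norm_num) (by
    intro z w hw hz
    have hz' : (ch d (rm G * Pc)).mulVec w = z • w := hz
    by_cases hz0 : z = 0
    · rw [hz0, norm_zero]; norm_num
    have h1 : (ch d Pc).mulVec w = w := by
      have h2 : Pc * (rm G * Pc) = rm G * Pc := by
        rw [← mul_assoc, ← hGc.eq, mul_assoc, hS.ic]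
      have h3 : (ch d Pc).mulVec (z • w) = z • w := by
        rw [← hz', Matrix.mulVec_mulVec, ← map_mul, h2]
      rw [Matrix.mulVec_smul] at h3
      calc (ch d Pc).mulVec w = z⁻¹ • (z • (ch d Pc).mulVec w) := by
            rw [smul_smul, inv_mul_cancel₀ hz0, one_smul]
        _ = w := by rw [h3, smul_smul, inv_mul_cancel₀ hz0, one_smul]
    have h4 : (ch d (rm G)).mulVec w = z • w := by
      rw [← hz', map_mul, ← Matrix.mulVec_mulVec, h1]
    exact (key z w hw h1 h4).2)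
  refine ⟨G, Y⁻¹, hGc.eq, hRc, ?_, ?_, ?_⟩
  · calc rm G * Y⁻¹ * Pc = rm G * (Pc * Y⁻¹) := by rw [mul_assoc, hRc]
      _ = (Y * Pc) * Y⁻¹ := by rw [← mul_assoc, hYP]
      _ = (Pc * Y) * Y⁻¹ := by rw [hYc.eq]
      _ = Pc := by rw [mul_assoc, hY1, mul_one]
  · calc Y⁻¹ * rm G * Pc = Y⁻¹ * (Y * Pc) := by rw [mul_assoc, hYP]
      _ = Pc := by rw [← mul_assoc, hY2, one_mul]
  · let L := (Matrix.mulVecLin Pc).toContinuousLinearMap
    have hL : ∀ v : Fin d → ℝ, ‖Pc.mulVec v‖ ≤ ‖L‖ * ‖v‖ := fun v => L.le_opNorm v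
    refine ⟨|C| * ‖L‖, 1 / 2, by norm_num, by norm_num, fun j v => ?_⟩
    have h1 : (rm G) ^ j * Pc = (rm G * Pc) ^ j * Pc := by
      rw [hGc.mul_pow, mul_assoc]
      congr 1
      have : ∀ j : ℕ, Pc ^ j * Pc = Pc := by
        intro j
        induction j with
        | zero => simp
        | succ j ih => rw [pow_succ, mul_assoc, hS.ic, ih]
      exact (this j).symm
    rw [h1, ← Matrix.mulVec_mulVec]
    calc ‖((rm G * Pc) ^ j).mulVec (Pc.mulVec v)‖ ≤ C * (1 / 2) ^ j * ‖Pc.mulVec v‖ := hC j _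
      _ ≤ |C| * (1 / 2) ^ j * (‖L‖ * ‖v‖) := by
          refine mul_le_mul ?_ (hL v) (norm_nonneg _) (by positivity)
          exact mul_le_mul_of_nonneg_right (le_abs_self C) (by positivity)
      _ = |C| * ‖L‖ * (1 / 2) ^ j * ‖v‖ := by ring

end Pool.Agent.R435.GE.PP2
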